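import Pool.Agent.H69.CR.Mid

/-!
[H69 CR BAD] Rough numbers which are not cyclic in a short interval, below the square root: the total.
-/

namespace Pool.Agent.H69.CR

open Finset Classical

open Pool.Agent.H69.CP (class_card dvd_card harm Rough)
open Pool.Agent.H69

/-- multiples of `p ^ 2` -/
noncomputable def D (x y p : ℕ) : Finset ℕ := (Ioc x (x + y)).filter fun m => p ^ 2 ∣ m

noncomputable def L1 (x y P : ℕ) : Finset ℕ :=
  (Ioc x (x + y)).filter fun m => ∃ p r k : ℕ, P < p ∧ 1 ≤ r ∧ 1 ≤ k ∧ m = r * p * (1 + k * p)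

noncomputable def L2 (x y P : ℕ) : Finset ℕ :=
  (Ioc x (x + y)).filter fun m => ∃ p : ℕ, P < p ∧ p ^ 2 ∣ m

theorem bad_sub2 (x y P : ℕ) (w : ℝ) (hw : 1 ≤ w) (hyx : y ≤ x) :
    ((Ioc x (x + y)).filter fun m => ¬ CY.IsCyclicNumber m ∧ Rough w m) ⊆
      ((Ioc ⌊w⌋₊ P).biUnion fun p => D x y p ∪ (E1 x y (Nat.sqrt (2 * x)) p ∪ E2 x y (Nat.sqrt (2 * x)) p)) ∪
        (L1 x y P ∪ L2 x y P) := by
  intro m hm
  rw [mem_filter, mem_Ioc] at hm
  obtain ⟨⟨hm1, hm2⟩, hc, hr⟩ := hm
  obtain ⟨p, hp, hpm, h⟩ := CP.A.dvd_totient m (by omega) hc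
  have hwp : w < p := hr p hp hpm
  have hp0 : 0 < p := hp.pos
  set S := Nat.sqrt (2 * x) with hS
  have hSlt : 2 * x < (S + 1) * (S + 1) := Nat.lt_succ_sqrt (2 * x)
  have hm0 : 0 < m := by omega
  have hfl : ⌊w⌋₊ < p := (Nat.floor_lt (by linarith)).2 hwp
  rw [mem_union]
  rcases h with h | ⟨q, hq, hqp, hpq⟩
  · rcases Nat.lt_or_ge P p with h1 | h1
    · right
      rw [mem_union]
      right
      unfold L2
      rw [mem_filter, mem_Ioc]
      exact ⟨⟨hm1, hm2⟩, p, h1, h⟩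
    · left
      rw [mem_biUnion]
      refine ⟨p, mem_Ioc.2 ⟨hfl, h1⟩, ?_⟩
      rw [mem_union]
      left
      unfold D
      rw [mem_filter, mem_Ioc]
      exact ⟨⟨hm1, hm2⟩, h⟩
  · -- q = 1 + k p
    obtain ⟨r, hrm⟩ := hpq
    set k := q / p with hk
    have hqk : q = 1 + k * p := by
      have := Nat.div_add_mod q p
      rw [hqp] at this
      rw [hk]
      linarith
    have hk1 : 1 ≤ k := by
      rcases Nat.eq_zero_or_pos k with h0 | h0
      · rw [h0] at hqk
        have := hq.two_le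
        omega
      · exact h0
    have hr1 : 1 ≤ r := by
      rcases Nat.eq_zero_or_pos r with h0 | h0
      · rw [h0] at hrm
        omega
      · exact h0
    have hm3 : m = r * p * (1 + k * p) := by
      rw [hrm, hqk]; ring
    rcases Nat.lt_or_ge P p with h1 | h1
    · right
      rw [mem_union]
      left
      unfold L1
      rw [mem_filter, mem_Ioc]
      exact ⟨⟨hm1, hm2⟩, p, r, k, h1, hr1, hk1, hm3⟩
    · left
      have hlt : (r * p) * (k * p) < m := by
        rw [hm3]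
        have : 0 < r * p := Nat.mul_pos (by omega) hp0
        nlinarith
      have hor : r ≤ S / p ∨ k ≤ S / p := by
        by_contra hcon
        push Not at hcon
        have h1 : S < r * p := by
          have := (Nat.div_lt_iff_lt_mul hp0).1 hcon.1
          exact this
        have h2 : S < k * p := by
          have := (Nat.div_lt_iff_lt_mul hp0).1 hcon.2
          exact this
        have h3 : (S + 1) * (S + 1) ≤ (r * p) * (k * p) := Nat.mul_le_mul h1 h2
        omega
      rw [mem_biUnion]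
      refine ⟨p, mem_Ioc.2 ⟨hfl, h1⟩, ?_⟩
      rw [mem_union, mem_union]
      right
      rcases hor with h2 | h2
      · left
        unfold E1
        rw [mem_filter, mem_Ioc]
        exact ⟨⟨hm1, hm2⟩, r, k, hr1, hk1, h2, hm3⟩
      · right
        unfold E2
        rw [mem_filter, mem_Ioc]
        exact ⟨⟨hm1, hm2⟩, r, k, hr1, hk1, h2, hm3⟩

theorem bad_short2 (x y H P S : ℕ) (w : ℝ) (hw : 1 ≤ w) (hyx : y ≤ x) (hS : S = Nat.sqrt (2 * x)) (hS3 : 3 ≤ S)
    (hH : 1 ≤ H) (hP : 1 ≤ P) (hHP : H * P ≤ S) (hyH : (y : ℝ) * H ≤ S * w) :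
    (((Ioc x (x + y)).filter fun m => ¬ CY.IsCyclicNumber m ∧ Rough w m).card : ℝ) ≤
      (3 + 2 * Real.log S + 256 * H ^ 6) * (2 * y / w) + (3 + 8 * H ^ 4) * P + 4 * (S / H) * (1 + Real.log S) +
      ((2 * (x : ℝ) / P ^ 2) ^ 2 + 2 * (x : ℝ) / P ^ 2) * (1 + y / P) := by
  have hS1 : 1 ≤ S := by omega
  have hlogS : 0 ≤ Real.log S := Real.log_nonneg (by exact_mod_cast hS1)
  have hHR : (1 : ℝ) ≤ H := by exact_mod_cast hH
  have hH0 : (0 : ℝ) < H := by linarith
  set W := ⌊w⌋₊ with hW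
  have hW1 : 1 ≤ W := Nat.le_floor (by exact_mod_cast hw)
  have hWR : (1 : ℝ) ≤ W := by exact_mod_cast hW1
  have hww : w ≤ 2 * W := by
    have := Nat.lt_floor_add_one w
    rw [← hW] at this
    linarith
  have hPS : P ≤ S := le_trans (Nat.le_mul_of_pos_left P (by omega)) hHP
  have hs2 : ∑ p ∈ Ioc W P, 1 / (p : ℝ) ^ 2 ≤ 1 / (W : ℝ) := by
    rcases le_or_gt W P with h | h
    · have := sum_Ioc_inv_sq_le_sub (α := ℝ) (k := W) (n := P) (by omega) h
      have e : ∑ p ∈ Ioc W P, 1 / (p : ℝ) ^ 2 = ∑ i ∈ Ioc W P, ((i : ℝ) ^ 2)⁻¹ := by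
        apply sum_congr rfl
        intro p _
        rw [one_div]
      rw [e, one_div]
      have : (0 : ℝ) ≤ (P : ℝ)⁻¹ := by positivity
      linarith
    · rw [Finset.Ioc_eq_empty (by omega), sum_empty]
      positivity
  have hs1 : ∑ p ∈ Ioc W P, 1 / (p : ℝ) ≤ 1 + Real.log S := by
    refine le_trans ?_ (harm S)
    apply sum_le_sum_of_subset_of_nonneg
    · intro p hp
      rw [mem_Ioc] at hp
      rw [mem_Icc]
      omega
    · intro p _ _
      positivity
  have hcard : ((Ioc W P).card : ℝ) ≤ P := by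
    rw [Nat.card_Ioc]
    exact_mod_cast Nat.sub_le P W
  have hmain : ((((Ioc W P).biUnion fun p => D x y p ∪ (E1 x y S p ∪ E2 x y S p)).card : ℕ) : ℝ) ≤
      (3 + 2 * Real.log S + 256 * H ^ 6) * (2 * y / w) + (3 + 8 * H ^ 4) * P + 4 * (S / H) * (1 + Real.log S) := by
    calc ((((Ioc W P).biUnion fun p => D x y p ∪ (E1 x y S p ∪ E2 x y S p)).card : ℕ) : ℝ)
        ≤ ((∑ p ∈ Ioc W P, (D x y p ∪ (E1 x y S p ∪ E2 x y S p)).card : ℕ) : ℝ) := by
          exact_mod_cast card_biUnion_le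
      _ ≤ ∑ p ∈ Ioc W P, ((3 + 2 * Real.log S + 256 * H ^ 6) * y * (1 / (p : ℝ) ^ 2) +
            ((3 + 8 * (H : ℝ) ^ 4) + 4 * (S / H) * (1 / (p : ℝ)))) := by
          push_cast
          refine sum_le_sum fun p hp => ?_
          rw [mem_Ioc] at hp
          have hp0 : 0 < p := by omega
          have hpR : (0 : ℝ) < p := by exact_mod_cast hp0
          have hHp : H * p ≤ S := le_trans (Nat.mul_le_mul_left H hp.2) hHP
          have hwp : w ≤ p := by
            have h1 := Nat.lt_floor_add_one w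
            rw [← hW] at h1
            have h2 : (W : ℝ) + 1 ≤ p := by exact_mod_cast hp.1
            linarith
          have hyp : y * H ≤ S * p := by
            have h1 : (y : ℝ) * H ≤ S * p := hyH.trans (by gcongr)
            exact_mod_cast h1
          have e1 := E1_card x y S p H hS hS3 hp0 hH hHp hyp
          have e2 := E2_card x y S p H hS hS3 hp0 hH hHp hyp
          have e0 : ((D x y p).card : ℝ) ≤ y / (p : ℝ) ^ 2 + 1 := by
            have := dvd_card x y (p ^ 2) (by positivity)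
            push_cast at this
            exact this
          have e3 : ((D x y p ∪ (E1 x y S p ∪ E2 x y S p)).card : ℝ) ≤
              (D x y p).card + ((E1 x y S p).card + (E2 x y S p).card) := by
            have a1 := card_union_le (D x y p) (E1 x y S p ∪ E2 x y S p)
            have a2 := card_union_le (E1 x y S p) (E2 x y S p)
            exact_mod_cast a1.trans (Nat.add_le_add_left a2 _)
          have e4 : (3 + 2 * Real.log S + 256 * H ^ 6) * y * (1 / (p : ℝ) ^ 2) +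
            ((3 + 8 * (H : ℝ) ^ 4) + 4 * (S / H) * (1 / (p : ℝ))) = (y / (p : ℝ) ^ 2 + 1) +
            (((1 + Real.log S) * (y / (p : ℝ) ^ 2) + (S : ℝ) / p / H +
              ((S : ℝ) / p / H + 1 + 4 * H ^ 4 + 128 * (y / (p : ℝ) ^ 2) * H ^ 6)) +
            ((1 + Real.log S) * (y / (p : ℝ) ^ 2) + (S : ℝ) / p / H +
              ((S : ℝ) / p / H + 1 + 4 * H ^ 4 + 128 * (y / (p : ℝ) ^ 2) * H ^ 6))) := by
            field_simp
            ring
          rw [e4]
          linarith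
      _ = (3 + 2 * Real.log S + 256 * H ^ 6) * y * (∑ p ∈ Ioc W P, 1 / (p : ℝ) ^ 2) +
          (((Ioc W P).card : ℝ) * (3 + 8 * (H : ℝ) ^ 4) + 4 * (S / H) * ∑ p ∈ Ioc W P, 1 / (p : ℝ)) := by
          rw [sum_add_distrib, sum_add_distrib, ← mul_sum, ← mul_sum, sum_const, nsmul_eq_mul]
      _ ≤ (3 + 2 * Real.log S + 256 * H ^ 6) * y * (1 / (W : ℝ)) +
          ((P : ℝ) * (3 + 8 * (H : ℝ) ^ 4) + 4 * (S / H) * (1 + Real.log S)) := by
          gcongr
      _ ≤ (3 + 2 * Real.log S + 256 * H ^ 6) * y * (2 / w) +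
          ((P : ℝ) * (3 + 8 * (H : ℝ) ^ 4) + 4 * (S / H) * (1 + Real.log S)) := by
          have h1 : (1 : ℝ) / W ≤ 2 / w := by
            rw [div_le_div_iff₀ (by linarith) (by linarith)]
            linarith
          gcongr
      _ = _ := by ring
  have hl1 : ((L1 x y P).card : ℝ) ≤ (2 * (x : ℝ) / P ^ 2) ^ 2 * (1 + y / P) := large_p x y P hP hyx
  have hl2 : ((L2 x y P).card : ℝ) ≤ (2 * (x : ℝ) / P ^ 2) * (1 + y / P) := large_sq x y P hP hyx
  have hsub := bad_sub2 x y P w hw hyx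
  rw [← hS, ← hW] at hsub
  have h1 := (card_le_card hsub).trans (card_union_le _ _)
  have h2 := card_union_le (L1 x y P) (L2 x y P)
  have h3 : (((Ioc x (x + y)).filter fun m => ¬ CY.IsCyclicNumber m ∧ Rough w m).card : ℝ) ≤
      ((((Ioc W P).biUnion fun p => D x y p ∪ (E1 x y S p ∪ E2 x y S p)).card : ℕ) : ℝ) +
      (((L1 x y P).card : ℝ) + ((L2 x y P).card : ℝ)) := by
    exact_mod_cast h1.trans (Nat.add_le_add_left h2 _)
  have e : ((2 * (x : ℝ) / P ^ 2) ^ 2 + 2 * (x : ℝ) / P ^ 2) * (1 + y / P) =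
    (2 * (x : ℝ) / P ^ 2) ^ 2 * (1 + y / P) + (2 * (x : ℝ) / P ^ 2) * (1 + y / P) := by ring
  rw [e]
  linarith

end Pool.Agent.H69.CR
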