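import Mathlib

/-!
[H69 CR LRG] Numbers `r p (1 + k p)` and multiples of `p ^ 2` with `p > P` in a short interval.

Proof. `r k p ^ 2 ≤ 2 x`, so `r, k ≤ 2 x / P ^ 2`. For fixed `r, k` and `P < p < p'` with both numbers `f p = r p (1 + k p)`, `f p'` in
`(x, x + y]`: `y > f p' - f p = r (p' - p) (1 + k (p + p')) ≥ (p' - p) P`, so at most `1 + y / P` values of `p`. The same with
`f p = r p ^ 2` for the multiples of `p ^ 2`.
-/

namespace Pool.Agent.H69.CR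

open Finset Classical

private theorem lrg_cnt (f : ℕ → ℕ) (x y P : ℕ) (hP : 1 ≤ P)
    (hf : ∀ p d : ℕ, P < p → f p + d * P ≤ f (p + d)) (A : Finset ℕ)
    (hA : ∀ p ∈ A, P < p ∧ x < f p ∧ f p ≤ x + y) : (A.card : ℝ) ≤ 1 + y / P := by
  have hP0 : (0 : ℝ) < P := by exact_mod_cast hP
  rcases A.eq_empty_or_nonempty with h | h
  · rw [h, Finset.card_empty, Nat.cast_zero]
    positivity
  · have h0 := hA _ (A.min'_mem h)
    have h1 := hA _ (A.max'_mem h)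
    obtain ⟨d, hd⟩ := Nat.exists_eq_add_of_le (A.min'_le _ (A.max'_mem h))
    have h2 := hf _ d h0.1
    rw [← hd] at h2
    have h3 : d * P ≤ y := by omega
    have h4 : A ⊆ Finset.Icc (A.min' h) (A.max' h) := fun a ha =>
      Finset.mem_Icc.mpr ⟨A.min'_le a ha, A.le_max' a ha⟩
    have h5 := Finset.card_le_card h4
    rw [Nat.card_Icc, hd] at h5
    have h6 : A.card ≤ 1 + d := by omega
    have h7 : (A.card : ℝ) ≤ 1 + d := by exact_mod_cast h6
    have h8 : (d : ℝ) ≤ y / P := by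
      rw [le_div_iff₀ hP0]
      exact_mod_cast h3
    linarith

theorem large_p (x y P : ℕ) (hP : 1 ≤ P) (hyx : y ≤ x) :
    (((Ioc x (x + y)).filter fun m => ∃ p r k : ℕ, P < p ∧ 1 ≤ r ∧ 1 ≤ k ∧ m = r * p * (1 + k * p)).card : ℝ) ≤
      (2 * (x : ℝ) / P ^ 2) ^ 2 * (1 + y / P) := by
  have hP2 : 0 < P ^ 2 := by positivity
  have hsub : ((Ioc x (x + y)).filter fun m => ∃ p r k : ℕ, P < p ∧ 1 ≤ r ∧ 1 ≤ k ∧ m = r * p * (1 + k * p)) ⊆
      (Finset.Icc 1 (2 * x / P ^ 2) ×ˢ Finset.Icc 1 (2 * x / P ^ 2)).biUnion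
        (fun q => ((Finset.range (x + y + 1)).filter
          (fun p => P < p ∧ x < q.1 * p * (1 + q.2 * p) ∧ q.1 * p * (1 + q.2 * p) ≤ x + y)).image
            (fun p => q.1 * p * (1 + q.2 * p))) := by
    intro m hm
    rw [Finset.mem_filter, Finset.mem_Ioc] at hm
    obtain ⟨⟨hm1, hm2⟩, p, r, k, hp, hr, hk, rfl⟩ := hm
    have hpp : P ^ 2 ≤ p ^ 2 := Nat.pow_le_pow_left hp.le 2
    have e1 : r * k * p ^ 2 ≤ r * p * (1 + k * p) := by
      have : r * p * (1 + k * p) = r * k * p ^ 2 + r * p := by ring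
      omega
    have e2 : r * P ^ 2 ≤ r * k * p ^ 2 := by
      calc r * P ^ 2 ≤ r * p ^ 2 := Nat.mul_le_mul_left r hpp
        _ = r * 1 * p ^ 2 := by ring
        _ ≤ r * k * p ^ 2 := Nat.mul_le_mul_right _ (Nat.mul_le_mul_left r hk)
    have e3 : k * P ^ 2 ≤ r * k * p ^ 2 := by
      calc k * P ^ 2 ≤ k * p ^ 2 := Nat.mul_le_mul_left k hpp
        _ = 1 * k * p ^ 2 := by ring
        _ ≤ r * k * p ^ 2 := Nat.mul_le_mul_right _ (Nat.mul_le_mul_right k hr)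
    have hpx : p ≤ r * p * (1 + k * p) := by
      calc p = 1 * p * 1 := by ring
        _ ≤ r * p * (1 + k * p) := Nat.mul_le_mul (Nat.mul_le_mul_right p hr) (by omega)
    rw [Finset.mem_biUnion]
    refine ⟨(r, k), Finset.mem_product.mpr ⟨Finset.mem_Icc.mpr ⟨hr, ?_⟩, Finset.mem_Icc.mpr ⟨hk, ?_⟩⟩, ?_⟩
    · show r ≤ 2 * x / P ^ 2
      exact (Nat.le_div_iff_mul_le hP2).mpr (by omega)
    · show k ≤ 2 * x / P ^ 2
      exact (Nat.le_div_iff_mul_le hP2).mpr (by omega)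
    · exact Finset.mem_image.mpr ⟨p, Finset.mem_filter.mpr ⟨Finset.mem_range.mpr (by omega), hp, hm1, hm2⟩, rfl⟩
  have h1 : (((Ioc x (x + y)).filter fun m => ∃ p r k : ℕ, P < p ∧ 1 ≤ r ∧ 1 ≤ k ∧
      m = r * p * (1 + k * p)).card : ℝ) ≤
      ∑ q ∈ Finset.Icc 1 (2 * x / P ^ 2) ×ˢ Finset.Icc 1 (2 * x / P ^ 2), (1 + (y : ℝ) / P) := by
    refine le_trans (Nat.cast_le.mpr ((Finset.card_le_card hsub).trans Finset.card_biUnion_le)) ?_
    rw [Nat.cast_sum]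
    refine Finset.sum_le_sum fun q hq => ?_
    rw [Finset.mem_product, Finset.mem_Icc, Finset.mem_Icc] at hq
    refine le_trans (Nat.cast_le.mpr Finset.card_image_le) ?_
    refine lrg_cnt (fun p => q.1 * p * (1 + q.2 * p)) x y P hP ?_ _ ?_
    · intro p d hp
      have e4 : q.1 * (p + d) * (1 + q.2 * (p + d)) =
          q.1 * p * (1 + q.2 * p) + q.1 * (d * (1 + q.2 * (2 * p + d))) := by ring
      have e5 : d * P ≤ q.1 * (d * (1 + q.2 * (2 * p + d))) := by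
        calc d * P = 1 * (d * P) := by ring
          _ ≤ q.1 * (d * (1 + q.2 * (2 * p + d))) := by
            refine Nat.mul_le_mul hq.1.1 (Nat.mul_le_mul_left d ?_)
            have e6 : 1 * (2 * p + d) ≤ q.2 * (2 * p + d) := Nat.mul_le_mul_right _ hq.2.1
            omega
      show q.1 * p * (1 + q.2 * p) + d * P ≤ q.1 * (p + d) * (1 + q.2 * (p + d))
      omega
    · intro p hp
      exact (Finset.mem_filter.mp hp).2
  refine h1.trans ?_
  rw [Finset.sum_const, Finset.card_product, Nat.card_Icc, nsmul_eq_mul, Nat.cast_mul, Nat.add_sub_cancel]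
  have h2 : ((2 * x / P ^ 2 : ℕ) : ℝ) ≤ 2 * (x : ℝ) / P ^ 2 := by
    refine le_trans Nat.cast_div_le ?_
    push_cast
    exact le_rfl
  have h3 : (0 : ℝ) ≤ ((2 * x / P ^ 2 : ℕ) : ℝ) := Nat.cast_nonneg _
  have h4 : (0 : ℝ) ≤ 1 + (y : ℝ) / P := by positivity
  have h5 : ((2 * x / P ^ 2 : ℕ) : ℝ) * ((2 * x / P ^ 2 : ℕ) : ℝ) ≤ (2 * (x : ℝ) / P ^ 2) ^ 2 := by
    calc ((2 * x / P ^ 2 : ℕ) : ℝ) * ((2 * x / P ^ 2 : ℕ) : ℝ) ≤ (2 * (x : ℝ) / P ^ 2) * (2 * (x : ℝ) / P ^ 2) :=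
          mul_le_mul h2 h2 h3 (h3.trans h2)
      _ = (2 * (x : ℝ) / P ^ 2) ^ 2 := by ring
  exact mul_le_mul_of_nonneg_right h5 h4

theorem large_sq (x y P : ℕ) (hP : 1 ≤ P) (hyx : y ≤ x) :
    (((Ioc x (x + y)).filter fun m => ∃ p : ℕ, P < p ∧ p ^ 2 ∣ m).card : ℝ) ≤
      (2 * (x : ℝ) / P ^ 2) * (1 + y / P) := by
  have hP2 : 0 < P ^ 2 := by positivity
  have hsub : ((Ioc x (x + y)).filter fun m => ∃ p : ℕ, P < p ∧ p ^ 2 ∣ m) ⊆
      (Finset.Icc 1 (2 * x / P ^ 2)).biUnion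
        (fun c => ((Finset.range (x + y + 1)).filter
          (fun p => P < p ∧ x < p ^ 2 * c ∧ p ^ 2 * c ≤ x + y)).image (fun p => p ^ 2 * c)) := by
    intro m hm
    rw [Finset.mem_filter, Finset.mem_Ioc] at hm
    obtain ⟨⟨hm1, hm2⟩, p, hp, c, rfl⟩ := hm
    have hpp : P ^ 2 ≤ p ^ 2 := Nat.pow_le_pow_left hp.le 2
    have hc : 1 ≤ c := by
      rcases Nat.eq_zero_or_pos c with h | h
      · rw [h, Nat.mul_zero] at hm1
        omega
      · exact h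
    have e2 : c * P ^ 2 ≤ p ^ 2 * c := by
      calc c * P ^ 2 ≤ c * p ^ 2 := Nat.mul_le_mul_left c hpp
        _ = p ^ 2 * c := by ring
    have hpx : p ≤ p ^ 2 * c := by
      calc p = p * 1 * 1 := by ring
        _ ≤ p * p * c := Nat.mul_le_mul (Nat.mul_le_mul_left p (by omega)) hc
        _ = p ^ 2 * c := by ring
    rw [Finset.mem_biUnion]
    refine ⟨c, Finset.mem_Icc.mpr ⟨hc, ?_⟩, ?_⟩
    · exact (Nat.le_div_iff_mul_le hP2).mpr (by omega)
    · exact Finset.mem_image.mpr ⟨p, Finset.mem_filter.mpr ⟨Finset.mem_range.mpr (by omega), hp, hm1, hm2⟩, rfl⟩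
  have h1 : (((Ioc x (x + y)).filter fun m => ∃ p : ℕ, P < p ∧ p ^ 2 ∣ m).card : ℝ) ≤
      ∑ q ∈ Finset.Icc 1 (2 * x / P ^ 2), (1 + (y : ℝ) / P) := by
    refine le_trans (Nat.cast_le.mpr ((Finset.card_le_card hsub).trans Finset.card_biUnion_le)) ?_
    rw [Nat.cast_sum]
    refine Finset.sum_le_sum fun q hq => ?_
    rw [Finset.mem_Icc] at hq
    refine le_trans (Nat.cast_le.mpr Finset.card_image_le) ?_
    refine lrg_cnt (fun p => p ^ 2 * q) x y P hP ?_ _ ?_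
    · intro p d hp
      have e4 : (p + d) ^ 2 * q = p ^ 2 * q + d * (2 * p + d) * q := by ring
      have e5 : d * P ≤ d * (2 * p + d) * q := by
        calc d * P = d * P * 1 := by ring
          _ ≤ d * (2 * p + d) * q := Nat.mul_le_mul (Nat.mul_le_mul_left d (by omega)) hq.1
      show p ^ 2 * q + d * P ≤ (p + d) ^ 2 * q
      omega
    · intro p hp
      exact (Finset.mem_filter.mp hp).2
  refine h1.trans ?_
  rw [Finset.sum_const, Nat.card_Icc, nsmul_eq_mul, Nat.add_sub_cancel]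
  have h2 : ((2 * x / P ^ 2 : ℕ) : ℝ) ≤ 2 * (x : ℝ) / P ^ 2 := by
    refine le_trans Nat.cast_div_le ?_
    push_cast
    exact le_rfl
  have h4 : (0 : ℝ) ≤ 1 + (y : ℝ) / P := by positivity
  exact mul_le_mul_of_nonneg_right h2 h4

end Pool.Agent.H69.CR
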