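import Mathlib

/-!
[H69 CR TWO] Two-point lemma: few integers `n` in `(R/H, R]` for which `A / (n + s) - u` has an integer in distance `B / n` above.

Proof. `T = T' ∪ ⋃_{h ≤ H} T_h`, where `T_h` is the set of `n ∈ T` with `n + h ∈ T` and `T'` the set of `n ∈ T` without `n + h ∈ T`
for `1 ≤ h ≤ H`. `T'` is spaced by `H + 1` (`n ↦ n / (H + 1)` is injective on it): `|T'| ≤ R / H + 1`. For `n ∈ T_h` put
`a = v n - v (n + h)`; then `|a - g n| ≤ B H / R ≤ 1` with `g n = A h / ((n + s) (n + h + s))`, `0 < g n ≤ h H ^ 2`, so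
`0 ≤ a ≤ h H ^ 2 + 1`: at most `h H ^ 2 + 2 ≤ 3 H ^ 3` values of `a`. If `n < n'` are in `T_h` with the same `a`, then
`2 B H / R ≥ g n - g n' = A h (n' - n) (n + n' + h + 2 s) / ((n+s)(n+h+s)(n'+s)(n'+h+s)) ≥ (R^2 / 2) h (n' - n) (2 R / H) / (2 R)^4
= h (n' - n) / (16 H R)`, so `n' - n ≤ 32 B H ^ 2`: at most `32 B H ^ 2 + 1` elements for each `a`. Total
`R / H + 1 + H * 3 H ^ 3 (1 + 32 B H ^ 2)`.
-/

namespace Pool.Agent.H69.CR

open Finset Classical

private theorem card_le_of_diff {S : Finset ℕ} {K : ℝ} (hK : 0 ≤ K)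
    (h : ∀ n ∈ S, ∀ n' ∈ S, n < n' → ((n' : ℝ) - n) ≤ K) : (S.card : ℝ) ≤ K + 1 := by
  rcases S.eq_empty_or_nonempty with rfl | hne
  · rw [card_empty, Nat.cast_zero]
    linarith
  · have hm := S.min'_mem hne
    have hsub : S ⊆ Finset.Icc (S.min' hne) (S.min' hne + ⌊K⌋₊) := by
      intro n hn
      have h1 := S.min'_le n hn
      rw [Finset.mem_Icc]
      refine ⟨h1, ?_⟩
      rcases h1.eq_or_lt with h2 | h2
      · omega
      · have h3 := h _ hm n hn h2
        have h4 : n - S.min' hne ≤ ⌊K⌋₊ := by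
          apply Nat.le_floor
          rw [Nat.cast_sub h1]
          exact h3
        omega
    have h5 := Finset.card_le_card hsub
    rw [Nat.card_Icc] at h5
    have h6 : S.card ≤ ⌊K⌋₊ + 1 := by omega
    have h7 : (S.card : ℝ) ≤ (⌊K⌋₊ : ℝ) + 1 := by exact_mod_cast h6
    linarith [Nat.floor_le hK]

private theorem g_diff {A h x y : ℝ} (hx : 0 < x) (hy : 0 < y) (hh : 0 < h) :
    (A / x - A / (x + h)) - (A / y - A / (y + h)) =
      A * h * (y - x) * (x + y + h) / (x * (x + h) * (y * (y + h))) := by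
  have h1 : x + h ≠ 0 := by positivity
  have h2 : y + h ≠ 0 := by positivity
  field_simp
  ring

theorem two_point (A B u s R : ℝ) (H : ℕ) (hH : 1 ≤ H) (hs : 0 ≤ s) (hs1 : s ≤ 1) (hB : 0 ≤ B)
    (hA : R ^ 2 / 2 ≤ A) (hA2 : A ≤ R ^ 2) (hR : (H : ℝ) ≤ R) (hBR : B * H ≤ R) (T : Finset ℕ)
    (hT : ∀ n ∈ T, R / H < n ∧ (n : ℝ) ≤ R ∧
      ∃ v : ℤ, A / (n + s) - u ≤ v ∧ (v : ℝ) ≤ A / (n + s) - u + B / n) :
    (T.card : ℝ) ≤ R / H + 1 + 4 * H ^ 4 + 128 * B * H ^ 6 := by
  have hH0 : (1 : ℝ) ≤ H := by exact_mod_cast hH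
  have hHp : (0 : ℝ) < H := by linarith
  have hR0 : 0 < R := by linarith
  have hR1 : 1 ≤ R := by linarith
  have hRH : 1 ≤ R / H := by
    rw [le_div_iff₀ hHp]
    linarith
  have hA0 : 0 < A := lt_of_lt_of_le (by positivity) hA
  choose! v hv using fun n hn => (hT n hn).2.2
  obtain ⟨c, hc⟩ : ∃ c, c = B * H / R := ⟨_, rfl⟩
  have hc0 : 0 ≤ c := by
    rw [hc]
    positivity
  have hc1 : c ≤ 1 := by
    rw [hc, div_le_one hR0]
    exact hBR
  have he : ∀ n ∈ T, A / (n + s) - u ≤ v n ∧ (v n : ℝ) ≤ A / (n + s) - u + c := by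
    intro n hn
    refine ⟨(hv n hn).1, (hv n hn).2.trans ?_⟩
    have h1 : B / n ≤ c := by
      have h2 : B / (n : ℝ) ≤ B / (R / H) :=
        div_le_div_of_nonneg_left hB (by positivity) (hT n hn).1.le
      rw [div_div_eq_mul_div] at h2
      rw [hc]
      exact h2
    linarith
  -- the range of the differences
  have ha : ∀ n ∈ T, ∀ h : ℕ, 1 ≤ h → h ≤ H → n + h ∈ T →
      0 ≤ v n - v (n + h) ∧ v n - v (n + h) < (H ^ 3 + 2 : ℕ) := by
    intro n hn h h1 h2 hnh
    have e1 := he n hn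
    have e2 := he (n + h) hnh
    have hh : (1 : ℝ) ≤ h := by exact_mod_cast h1
    have hhH : (h : ℝ) ≤ H := by exact_mod_cast h2
    have hn1 := (hT n hn).1
    have hx : 0 < (n : ℝ) + s := by linarith
    have e3 : A / (((n + h : ℕ) : ℝ) + s) = A / ((n : ℝ) + s + h) := by
      push_cast
      congr 1
      ring
    rw [e3] at e2
    have e4 : A / ((n : ℝ) + s) - A / ((n : ℝ) + s + h) = A * h / (((n : ℝ) + s) * ((n : ℝ) + s + h)) := by
      have h3 : (n : ℝ) + s + h ≠ 0 := by positivity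
      field_simp
      ring
    have e5 : 0 < A * h / (((n : ℝ) + s) * ((n : ℝ) + s + h)) := by positivity
    have e6 : A * h / (((n : ℝ) + s) * ((n : ℝ) + s + h)) ≤ H ^ 3 := by
      rw [div_le_iff₀ (by positivity)]
      have h3 : R ≤ H * ((n : ℝ) + s) := by
        have h4 : R / H ≤ (n : ℝ) + s := by linarith
        rw [div_le_iff₀ hHp] at h4
        linarith
      have h5 : R ^ 2 ≤ (H * ((n : ℝ) + s)) ^ 2 := pow_le_pow_left₀ hR0.le h3 2
      calc A * h ≤ (H * ((n : ℝ) + s)) ^ 2 * H :=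
            mul_le_mul (hA2.trans h5) hhH (by positivity) (by positivity)
        _ = H ^ 3 * (((n : ℝ) + s) * ((n : ℝ) + s)) := by ring
        _ ≤ H ^ 3 * (((n : ℝ) + s) * ((n : ℝ) + s + h)) := by
            apply mul_le_mul_of_nonneg_left _ (by positivity)
            apply mul_le_mul_of_nonneg_left _ hx.le
            linarith
    constructor
    · have h6 : (-1 : ℝ) < ((v n - v (n + h) : ℤ) : ℝ) := by
        push_cast
        linarith [e1.1, e2.2]
      have h7 : (-1 : ℤ) < v n - v (n + h) := by exact_mod_cast h6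
      omega
    · have h6 : ((v n - v (n + h) : ℤ) : ℝ) < ((H ^ 3 + 2 : ℕ) : ℝ) := by
        push_cast
        linarith [e1.2, e2.1]
      exact_mod_cast h6
  -- the sets with given difference
  obtain ⟨S, hS⟩ : ∃ S : ℕ → ℕ → Finset ℕ,
      S = fun (h a : ℕ) => T.filter fun n => n + h ∈ T ∧ v n - v (n + h) = (a : ℤ) := ⟨_, rfl⟩
  have hcard : ∀ h ∈ Finset.Icc 1 H, ∀ a ∈ Finset.range (H ^ 3 + 2),
      ((S h a).card : ℝ) ≤ 32 * B * H ^ 2 + 1 := by
    intro h hh a _
    rw [Finset.mem_Icc] at hh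
    apply card_le_of_diff (by positivity)
    intro n hn n' hn' hlt
    rw [hS] at hn hn'
    simp only [Finset.mem_filter] at hn hn'
    have h1 : (1 : ℝ) ≤ h := by exact_mod_cast hh.1
    have hltr : (n : ℝ) < n' := by exact_mod_cast hlt
    have b1 := hT n hn.1
    have b2 := hT n' hn'.1
    have b3 := hT (n + h) hn.2.1
    have b4 := hT (n' + h) hn'.2.1
    have e1 := he n hn.1
    have e2 := he n' hn'.1
    have e3 := he (n + h) hn.2.1
    have e4 := he (n' + h) hn'.2.1
    have r1 : ((v n : ℝ) - v (n + h)) = (a : ℝ) := by exact_mod_cast hn.2.2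
    have r2 : ((v n' : ℝ) - v (n' + h)) = (a : ℝ) := by exact_mod_cast hn'.2.2
    have f1 : A / (((n + h : ℕ) : ℝ) + s) = A / ((n : ℝ) + s + h) := by
      push_cast
      congr 1
      ring
    have f2 : A / (((n' + h : ℕ) : ℝ) + s) = A / ((n' : ℝ) + s + h) := by
      push_cast
      congr 1
      ring
    rw [f1] at e3
    rw [f2] at e4
    have c3 : (n : ℝ) + h ≤ R := by
      have := b3.2.1
      push_cast at this
      exact this
    have c4 : (n' : ℝ) + h ≤ R := by
      have := b4.2.1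
      push_cast at this
      exact this
    obtain ⟨x, hx⟩ : ∃ x : ℝ, x = n + s := ⟨_, rfl⟩
    obtain ⟨y, hy⟩ : ∃ y : ℝ, y = n' + s := ⟨_, rfl⟩
    rw [← hx] at e1 e3
    rw [← hy] at e2 e4
    have hx0 : R / H < x := by rw [hx]; linarith [b1.1]
    have hy0 : R / H < y := by rw [hy]; linarith [b2.1]
    have hxp : 0 < x := by linarith
    have hyp : 0 < y := by linarith
    have hhp : (0 : ℝ) < h := by linarith
    have hle : (A / x - A / (x + h)) - (A / y - A / (y + h)) ≤ 2 * c := by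
      linarith [e1.1, e1.2, e2.1, e2.2, e3.1, e3.2, e4.1, e4.2]
    rw [g_diff hxp hyp hhp] at hle
    have hyx : 0 < y - x := by rw [hx, hy]; linarith
    have k1 : x * (x + h) * (y * (y + h)) ≤ 16 * R ^ 4 := by
      have m1 : x ≤ 2 * R := by rw [hx]; linarith
      have m2 : x + h ≤ 2 * R := by rw [hx]; linarith
      have m3 : y ≤ 2 * R := by rw [hy]; linarith
      have m4 : y + h ≤ 2 * R := by rw [hy]; linarith
      have m5 : x * (x + h) ≤ (2 * R) * (2 * R) :=
        mul_le_mul m1 m2 (by positivity) (by positivity)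
      have m6 : y * (y + h) ≤ (2 * R) * (2 * R) :=
        mul_le_mul m3 m4 (by positivity) (by positivity)
      calc x * (x + h) * (y * (y + h)) ≤ ((2 * R) * (2 * R)) * ((2 * R) * (2 * R)) :=
            mul_le_mul m5 m6 (by positivity) (by positivity)
        _ = 16 * R ^ 4 := by ring
    have k2 : 16 * R ^ 4 ≤ 16 * H * R * (A * h * (x + y + h)) := by
      have m1 : 2 * R ≤ H * (x + y + h) := by
        have m2 : 2 * (R / H) ≤ x + y + h := by linarith
        have m3 : 2 * R = H * (2 * (R / H)) := by field_simp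
        rw [m3]
        exact mul_le_mul_of_nonneg_left m2 hHp.le
      have m4 : R ^ 2 / 2 ≤ A * h := by
        calc R ^ 2 / 2 ≤ A * 1 := by linarith
          _ ≤ A * h := mul_le_mul_of_nonneg_left h1 hA0.le
      calc 16 * R ^ 4 = 16 * R * ((R ^ 2 / 2) * (2 * R)) := by ring
        _ ≤ 16 * R * ((A * h) * (H * (x + y + h))) := by
            apply mul_le_mul_of_nonneg_left _ (by positivity)
            exact mul_le_mul m4 m1 (by positivity) (by positivity)
        _ = 16 * H * R * (A * h * (x + y + h)) := by ring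
    have hD : 0 < x * (x + h) * (y * (y + h)) := by positivity
    have k3 : y - x ≤ 16 * H * R * (A * h * (y - x) * (x + y + h) / (x * (x + h) * (y * (y + h)))) := by
      rw [← mul_div_assoc, le_div_iff₀ hD]
      calc (y - x) * (x * (x + h) * (y * (y + h))) ≤ (y - x) * (16 * H * R * (A * h * (x + y + h))) :=
            mul_le_mul_of_nonneg_left (k1.trans k2) hyx.le
        _ = 16 * H * R * (A * h * (y - x) * (x + y + h)) := by ring
    have k4 : 16 * H * R * (A * h * (y - x) * (x + y + h) / (x * (x + h) * (y * (y + h)))) ≤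
        16 * H * R * (2 * c) := mul_le_mul_of_nonneg_left hle (by positivity)
    have k5 : 16 * H * R * (2 * c) = 32 * B * H ^ 2 := by
      rw [hc]
      field_simp
      ring
    have k6 : (n' : ℝ) - n = y - x := by
      rw [hx, hy]
      ring
    rw [k6]
    linarith
  -- the isolated elements
  obtain ⟨T', hT'⟩ : ∃ T' : Finset ℕ, T' = T.filter fun n => ∀ h ∈ Finset.Icc 1 H, n + h ∉ T :=
    ⟨_, rfl⟩
  have hT'card : (T'.card : ℝ) ≤ R / H + 1 := by
    have h1 : T'.card ≤ (Finset.range (⌊R⌋₊ / (H + 1) + 1)).card := by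
      apply Finset.card_le_card_of_injOn (fun n => n / (H + 1))
      · intro n hn
        rw [hT', Finset.mem_coe, Finset.mem_filter] at hn
        have h2 : n ≤ ⌊R⌋₊ := Nat.le_floor (hT n hn.1).2.1
        have h3 := Nat.div_le_div_right (c := H + 1) h2
        simp only [Finset.coe_range, Set.mem_Iio]
        omega
      · intro n hn n' hn' heq
        rw [hT', Finset.mem_coe, Finset.mem_filter] at hn hn'
        simp only at heq
        by_contra hne
        have key : ∀ m m' : ℕ, m < m' → m / (H + 1) = m' / (H + 1) → m' - m ∈ Finset.Icc 1 H := by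
          intro m m' hlt hdiv
          have d1 := Nat.div_add_mod m (H + 1)
          have d2 := Nat.div_add_mod m' (H + 1)
          have d3 := Nat.mod_lt m (by omega : 0 < H + 1)
          have d4 := Nat.mod_lt m' (by omega : 0 < H + 1)
          rw [hdiv] at d1
          rw [Finset.mem_Icc]
          omega
        rcases lt_or_gt_of_ne hne with hlt | hlt
        · have h2 := hn.2 _ (key n n' hlt heq)
          rw [Nat.add_sub_cancel' hlt.le] at h2
          exact h2 hn'.1
        · have h2 := hn'.2 _ (key n' n hlt heq.symm)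
          rw [Nat.add_sub_cancel' hlt.le] at h2
          exact h2 hn.1
    rw [Finset.card_range] at h1
    have h2 : (T'.card : ℝ) ≤ ((⌊R⌋₊ / (H + 1) : ℕ) : ℝ) + 1 := by exact_mod_cast h1
    have h3 : ((⌊R⌋₊ / (H + 1) : ℕ) : ℝ) ≤ (⌊R⌋₊ : ℝ) / ((H + 1 : ℕ) : ℝ) := Nat.cast_div_le
    have h4 : (⌊R⌋₊ : ℝ) / ((H + 1 : ℕ) : ℝ) ≤ R / H := by
      apply div_le_div₀ hR0.le (Nat.floor_le hR0.le) hHp
      push_cast
      linarith
    linarith
  have hcov : T ⊆ T' ∪ (Finset.Icc 1 H).biUnion fun h =>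
      (Finset.range (H ^ 3 + 2)).biUnion fun a => S h a := by
    intro n hn
    rw [Finset.mem_union]
    by_cases hex : ∃ h ∈ Finset.Icc 1 H, n + h ∈ T
    · right
      obtain ⟨h, hh, hnh⟩ := hex
      have hh' := Finset.mem_Icc.1 hh
      obtain ⟨k1, k2⟩ := ha n hn h hh'.1 hh'.2 hnh
      rw [Finset.mem_biUnion]
      refine ⟨h, hh, ?_⟩
      rw [Finset.mem_biUnion]
      refine ⟨(v n - v (n + h)).toNat, ?_, ?_⟩
      · rw [Finset.mem_range]
        omega
      · rw [hS]
        simp only [Finset.mem_filter]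
        refine ⟨hn, hnh, ?_⟩
        omega
    · left
      rw [hT', Finset.mem_filter]
      refine ⟨hn, fun h hh hc' => hex ⟨h, hh, hc'⟩⟩
  have hfin : (T.card : ℝ) ≤ T'.card + ∑ h ∈ Finset.Icc 1 H, ∑ a ∈ Finset.range (H ^ 3 + 2),
      ((S h a).card : ℝ) := by
    have h1 := (Finset.card_le_card hcov).trans (Finset.card_union_le _ _)
    have h2 : ((Finset.Icc 1 H).biUnion fun h =>
        (Finset.range (H ^ 3 + 2)).biUnion fun a => S h a).card ≤
        ∑ h ∈ Finset.Icc 1 H, ∑ a ∈ Finset.range (H ^ 3 + 2), (S h a).card :=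
      Finset.card_biUnion_le.trans (Finset.sum_le_sum fun h _ => Finset.card_biUnion_le)
    have h3 := h1.trans (Nat.add_le_add_left h2 _)
    exact_mod_cast h3
  have hsum : ∑ h ∈ Finset.Icc 1 H, ∑ a ∈ Finset.range (H ^ 3 + 2), ((S h a).card : ℝ) ≤
      H * (((H : ℝ) ^ 3 + 2) * (32 * B * H ^ 2 + 1)) := by
    calc ∑ h ∈ Finset.Icc 1 H, ∑ a ∈ Finset.range (H ^ 3 + 2), ((S h a).card : ℝ)
        ≤ ∑ h ∈ Finset.Icc 1 H, ∑ a ∈ Finset.range (H ^ 3 + 2), (32 * B * (H : ℝ) ^ 2 + 1) :=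
          Finset.sum_le_sum fun h hh => Finset.sum_le_sum fun a ha' => hcard h hh a ha'
      _ = H * (((H : ℝ) ^ 3 + 2) * (32 * B * H ^ 2 + 1)) := by
          rw [Finset.sum_const, Finset.sum_const, Finset.card_range, Nat.card_Icc, nsmul_eq_mul,
            nsmul_eq_mul]
          push_cast
          ring
  have hH3 : (1 : ℝ) ≤ (H : ℝ) ^ 3 := one_le_pow₀ hH0
  have hlast : H * (((H : ℝ) ^ 3 + 2) * (32 * B * H ^ 2 + 1)) ≤ 4 * H ^ 4 + 128 * B * H ^ 6 := by
    calc (H : ℝ) * (((H : ℝ) ^ 3 + 2) * (32 * B * H ^ 2 + 1))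
        ≤ H * ((3 * (H : ℝ) ^ 3) * (32 * B * H ^ 2 + 1)) := by
          apply mul_le_mul_of_nonneg_left _ hHp.le
          apply mul_le_mul_of_nonneg_right _ (by positivity)
          linarith
      _ = 3 * H ^ 4 + 96 * B * H ^ 6 := by ring
      _ ≤ 4 * H ^ 4 + 128 * B * H ^ 6 := by
          have h1 : 0 ≤ (H : ℝ) ^ 4 := by positivity
          have h2 : 0 ≤ B * (H : ℝ) ^ 6 := by positivity
          nlinarith
  linarith

end Pool.Agent.H69.CR
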