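import Pool.Agent.H69.CP.Bsh
import Pool.Agent.H69.CR.Two
import Pool.Agent.H69.CR.Lrg

/-!
[H69 CR MID] Rough numbers which are not cyclic in a short interval, below the square root.
-/

namespace Pool.Agent.H69.CR

open Finset Classical

open Pool.Agent.H69.CP (class_card dvd_card harm Rough)

/-- numbers `r p (1 + k p)` with `r ≤ S / p` -/
noncomputable def E1 (x y S p : ℕ) : Finset ℕ :=
  (Ioc x (x + y)).filter fun m => ∃ r k : ℕ, 1 ≤ r ∧ 1 ≤ k ∧ r ≤ S / p ∧ m = r * p * (1 + k * p)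

/-- numbers `r p (1 + k p)` with `k ≤ S / p` -/
noncomputable def E2 (x y S p : ℕ) : Finset ℕ :=
  (Ioc x (x + y)).filter fun m => ∃ r k : ℕ, 1 ≤ r ∧ 1 ≤ k ∧ k ≤ S / p ∧ m = r * p * (1 + k * p)

/-- small indices -/
noncomputable def Sm (S p H : ℕ) : Finset ℕ := (Icc 1 (S / p)).filter fun r => (r : ℝ) ≤ (S : ℝ) / p / H

theorem Sm_card (S p H : ℕ) : ((Sm S p H).card : ℝ) ≤ (S : ℝ) / p / H := by
  have hsub : Sm S p H ⊆ Icc 1 ⌊(S : ℝ) / p / H⌋₊ := by
    intro r hr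
    unfold Sm at hr
    rw [mem_filter, mem_Icc] at hr
    rw [mem_Icc]
    exact ⟨hr.1.1, Nat.le_floor hr.2⟩
  have h1 := card_le_card hsub
  rw [Nat.card_Icc, Nat.add_sub_cancel] at h1
  have h2 : ((⌊(S : ℝ) / p / H⌋₊ : ℕ) : ℝ) ≤ (S : ℝ) / p / H := Nat.floor_le (by positivity)
  exact le_trans (by exact_mod_cast h1) h2

theorem gen_card (y S p H : ℕ) (hp : 0 < p) (hS : 1 ≤ S) (hH : 1 ≤ H) (f : ℕ → Finset ℕ) (E T : Finset ℕ) (b : ℝ)
    (hf : ∀ r, 1 ≤ r → ((f r).card : ℝ) ≤ 1 / (r : ℝ) * (y / (p : ℝ) ^ 2) + 1)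
    (hyH : y * H ≤ S * p) (hT : (T.card : ℝ) ≤ b) (hT2 : ∀ r ∈ T, (S : ℝ) / p / H < r)
    (hE : E ⊆ (Sm S p H).biUnion f ∪ T.biUnion f) :
    (E.card : ℝ) ≤ (1 + Real.log S) * (y / (p : ℝ) ^ 2) + (S : ℝ) / p / H + b := by
  have hpR : (0 : ℝ) < p := by exact_mod_cast hp
  have hHR : (0 : ℝ) < H := by exact_mod_cast hH
  have hSR : (1 : ℝ) ≤ S := by exact_mod_cast hS
  have hlogS : 0 ≤ Real.log S := Real.log_nonneg hSR
  have hsmall : (((Sm S p H).biUnion f).card : ℝ) ≤ (1 + Real.log S) * (y / (p : ℝ) ^ 2) + (S : ℝ) / p / H := by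
    calc (((Sm S p H).biUnion f).card : ℝ) ≤ ((∑ r ∈ Sm S p H, (f r).card : ℕ) : ℝ) := by
          exact_mod_cast card_biUnion_le
      _ ≤ ∑ r ∈ Sm S p H, (1 / (r : ℝ) * (y / (p : ℝ) ^ 2) + 1) := by
          push_cast
          refine sum_le_sum fun r hr => hf r ?_
          unfold Sm at hr
          rw [mem_filter, mem_Icc] at hr
          exact hr.1.1
      _ = (∑ r ∈ Sm S p H, 1 / (r : ℝ)) * (y / (p : ℝ) ^ 2) + ((Sm S p H).card : ℝ) := by
          rw [sum_add_distrib, ← sum_mul]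
          simp
      _ ≤ (1 + Real.log S) * (y / (p : ℝ) ^ 2) + (S : ℝ) / p / H := by
          have h1 : ∑ r ∈ Sm S p H, 1 / (r : ℝ) ≤ 1 + Real.log S := by
            refine le_trans ?_ (harm S)
            apply sum_le_sum_of_subset_of_nonneg
            · intro r hr
              unfold Sm at hr
              rw [mem_filter, mem_Icc] at hr
              rw [mem_Icc]
              exact ⟨hr.1.1, hr.1.2.trans (Nat.div_le_self _ _)⟩
            · intro r _ _
              positivity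
          have h2 := Sm_card S p H
          gcongr
  have hbig : ((T.biUnion f).card : ℝ) ≤ b := by
    refine le_trans ?_ hT
    have h1 : (T.biUnion f).card ≤ T.card * 1 := by
      apply card_biUnion_le_card_mul
      intro r hr
      have h2 := hT2 r hr
      have hr0 : (0 : ℝ) < r := lt_of_le_of_lt (by positivity) h2
      have hr1 : 1 ≤ r := by exact_mod_cast hr0
      have h3 := hf r hr1
      have h4 : 1 / (r : ℝ) * (y / (p : ℝ) ^ 2) < 1 := by
        rw [one_div, inv_mul_lt_iff₀ hr0, mul_one]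
        refine lt_of_le_of_lt ?_ h2
        have h5 : (y : ℝ) * H ≤ S * p := by exact_mod_cast hyH
        rw [div_div, div_le_div_iff₀ (by positivity) (by positivity)]
        calc (y : ℝ) * (p * H) = (y * H) * p := by ring
          _ ≤ (S * p) * p := by gcongr
          _ = S * p ^ 2 := by ring
      have h6 : ((f r).card : ℝ) < 2 := by linarith
      have h7 : (f r).card < 2 := by exact_mod_cast h6
      omega
    rw [mul_one] at h1
    exact_mod_cast h1
  have h := (card_le_card hE).trans (card_union_le _ _)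
  have h' : (E.card : ℝ) ≤ (((Sm S p H).biUnion f).card : ℝ) + ((T.biUnion f).card : ℝ) := by exact_mod_cast h
  linarith

section

variable (x y S p H : ℕ) (hS : S = Nat.sqrt (2 * x)) (hS3 : 3 ≤ S) (hp : 0 < p) (hH : 1 ≤ H) (hHp : H * p ≤ S)
  (hyH : y * H ≤ S * p)

include hS hS3 hp in
theorem A_bounds : ((S : ℝ) / p) ^ 2 / 2 ≤ x / (p : ℝ) ^ 2 ∧ (x : ℝ) / (p : ℝ) ^ 2 ≤ ((S : ℝ) / p) ^ 2 := by
  have hpR : (0 : ℝ) < p := by exact_mod_cast hp
  have h1 : S * S ≤ 2 * x := by rw [hS]; exact Nat.sqrt_le _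
  have h2 : 2 * x < (S + 1) * (S + 1) := by rw [hS]; exact Nat.lt_succ_sqrt _
  have h3 : (S : ℝ) * S ≤ 2 * x := by exact_mod_cast h1
  have h4 : x ≤ S * S := by nlinarith
  have h5 : (x : ℝ) ≤ S * S := by exact_mod_cast h4
  constructor
  · rw [div_pow, div_div, div_le_div_iff₀ (by positivity) (by positivity)]
    nlinarith [sq_nonneg (p : ℝ), mul_le_mul_of_nonneg_right h3 (sq_nonneg (p : ℝ))]
  · rw [div_pow]
    gcongr
    linarith [sq (S : ℝ)]

include hS hS3 hp hH hHp hyH in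
theorem T1_card : (((Icc 1 (S / p)).filter fun r : ℕ => (S : ℝ) / p / H < r ∧
      ∃ k : ℕ, x < r * p * (1 + k * p) ∧ r * p * (1 + k * p) ≤ x + y).card : ℝ) ≤
      (S : ℝ) / p / H + 1 + 4 * H ^ 4 + 128 * (y / (p : ℝ) ^ 2) * H ^ 6 := by
  have hpR : (0 : ℝ) < p := by exact_mod_cast hp
  have hHR : (0 : ℝ) < H := by exact_mod_cast hH
  obtain ⟨a1, a2⟩ := A_bounds x S p hS hS3 hp
  have h5 : (y : ℝ) * H ≤ S * p := by exact_mod_cast hyH
  have h6 : (H : ℝ) * p ≤ S := by exact_mod_cast hHp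
  apply two_point (x / (p : ℝ) ^ 2) (y / (p : ℝ) ^ 2) (1 / p) 0 ((S : ℝ) / p) H hH le_rfl zero_le_one (by positivity)
    a1 a2
  · rw [le_div_iff₀ hpR]; exact h6
  · rw [div_mul_eq_mul_div, div_le_div_iff₀ (by positivity) hpR]
    calc (y : ℝ) * H * p ≤ S * p * p := by gcongr
      _ = S * p ^ 2 := by ring
  · intro r hr
    rw [mem_filter, mem_Icc] at hr
    obtain ⟨⟨hr1, hr2⟩, hr3, k, hk1, hk2⟩ := hr
    have hr0 : (0 : ℝ) < r := by exact_mod_cast hr1
    have hk1' : (x : ℝ) ≤ r * p * (1 + k * p) := by exact_mod_cast hk1.le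
    have hk2' : (r : ℝ) * p * (1 + k * p) ≤ x + y := by exact_mod_cast hk2
    refine ⟨hr3, ?_, (k : ℤ), ?_, ?_⟩
    · have h7 : ((S / p : ℕ) : ℝ) ≤ (S : ℝ) / p := Nat.cast_div_le
      exact le_trans (by exact_mod_cast hr2) h7
    · have e1 : (x : ℝ) / (p : ℝ) ^ 2 / (r + 0) - 1 / p = ((x : ℝ) - r * p) / (r * p ^ 2) := by
        rw [add_zero]; field_simp
      rw [e1, div_le_iff₀ (by positivity)]
      push_cast
      nlinarith
    · have e1 : (x : ℝ) / (p : ℝ) ^ 2 / (r + 0) - 1 / p + y / (p : ℝ) ^ 2 / r =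
          ((x : ℝ) + y - r * p) / (r * p ^ 2) := by
        rw [add_zero]; field_simp; ring
      rw [e1, le_div_iff₀ (by positivity)]
      push_cast
      nlinarith

include hS hS3 hp hH hHp hyH in
theorem T2_card : (((Icc 1 (S / p)).filter fun k : ℕ => (S : ℝ) / p / H < k ∧
      ∃ r : ℕ, x < r * p * (1 + k * p) ∧ r * p * (1 + k * p) ≤ x + y).card : ℝ) ≤
      (S : ℝ) / p / H + 1 + 4 * H ^ 4 + 128 * (y / (p : ℝ) ^ 2) * H ^ 6 := by
  have hpR : (0 : ℝ) < p := by exact_mod_cast hp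
  have hp1 : (1 : ℝ) ≤ p := by exact_mod_cast hp
  have hHR : (0 : ℝ) < H := by exact_mod_cast hH
  obtain ⟨a1, a2⟩ := A_bounds x S p hS hS3 hp
  have h5 : (y : ℝ) * H ≤ S * p := by exact_mod_cast hyH
  have h6 : (H : ℝ) * p ≤ S := by exact_mod_cast hHp
  apply two_point (x / (p : ℝ) ^ 2) (y / (p : ℝ) ^ 2) 0 (1 / p) ((S : ℝ) / p) H hH (by positivity)
    (by rw [div_le_one hpR]; exact hp1) (by positivity) a1 a2
  · rw [le_div_iff₀ hpR]; exact h6
  · rw [div_mul_eq_mul_div, div_le_div_iff₀ (by positivity) hpR]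
    calc (y : ℝ) * H * p ≤ S * p * p := by gcongr
      _ = S * p ^ 2 := by ring
  · intro k hk
    rw [mem_filter, mem_Icc] at hk
    obtain ⟨⟨hr1, hr2⟩, hr3, r, hk1, hk2⟩ := hk
    have hk0 : (0 : ℝ) < k := by exact_mod_cast hr1
    have hk1' : (x : ℝ) ≤ r * p * (1 + k * p) := by exact_mod_cast hk1.le
    have hk2' : (r : ℝ) * p * (1 + k * p) ≤ x + y := by exact_mod_cast hk2
    refine ⟨hr3, ?_, (r : ℤ), ?_, ?_⟩
    · have h7 : ((S / p : ℕ) : ℝ) ≤ (S : ℝ) / p := Nat.cast_div_le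
      exact le_trans (by exact_mod_cast hr2) h7
    · have e1 : (x : ℝ) / (p : ℝ) ^ 2 / (k + 1 / p) - 0 = (x : ℝ) / (p * (1 + k * p)) := by
        field_simp; ring
      rw [e1, div_le_iff₀ (by positivity)]
      push_cast
      linarith
    · have e1 : (x : ℝ) / (p : ℝ) ^ 2 / (k + 1 / p) - 0 = (x : ℝ) / (p * (1 + k * p)) := by
        field_simp; ring
      have e2 : (r : ℝ) ≤ ((x : ℝ) + y) / (p * (1 + k * p)) := by
        rw [le_div_iff₀ (by positivity)]
        linarith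
      have e3 : (y : ℝ) / (p * (1 + k * p)) ≤ y / (p : ℝ) ^ 2 / k := by
        rw [div_div]
        apply div_le_div_of_nonneg_left (by positivity) (by positivity)
        nlinarith
      rw [e1]
      push_cast
      rw [add_div] at e2
      linarith

include hS hS3 hp hH hHp hyH in
theorem E1_card : ((E1 x y S p).card : ℝ) ≤ (1 + Real.log S) * (y / (p : ℝ) ^ 2) + (S : ℝ) / p / H +
    ((S : ℝ) / p / H + 1 + 4 * H ^ 4 + 128 * (y / (p : ℝ) ^ 2) * H ^ 6) := by
  refine gen_card y S p H hp (by omega) hH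
    (fun r => (Ioc x (x + y)).filter fun m => m % (r * p ^ 2) = (r * p) % (r * p ^ 2)) _ _ _ ?_ hyH
    (T1_card x y S p H hS hS3 hp hH hHp hyH) ?_ ?_
  · intro r hr1
    have := class_card x y (r * p ^ 2) (r * p) (by positivity)
    refine this.trans (le_of_eq ?_)
    push_cast
    have : (r : ℝ) ≠ 0 := by positivity
    have : (p : ℝ) ≠ 0 := by positivity
    field_simp
  · intro r hr
    rw [mem_filter] at hr
    exact hr.2.1
  · intro m hm
    unfold E1 at hm
    rw [mem_filter, mem_Ioc] at hm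
    obtain ⟨⟨hm1, hm2⟩, r, k, hr1, hk1, hrS, hmr⟩ := hm
    have hmem : m ∈ (Ioc x (x + y)).filter fun m => m % (r * p ^ 2) = (r * p) % (r * p ^ 2) := by
      rw [mem_filter, mem_Ioc]
      refine ⟨⟨hm1, hm2⟩, ?_⟩
      have : m = r * p + r * p ^ 2 * k := by rw [hmr]; ring
      rw [this, Nat.add_mul_mod_self_left]
    rw [mem_union, mem_biUnion, mem_biUnion]
    rcases le_or_gt (r : ℝ) ((S : ℝ) / p / H) with h | h
    · left
      exact ⟨r, by unfold Sm; rw [mem_filter, mem_Icc]; exact ⟨⟨hr1, hrS⟩, h⟩, hmem⟩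
    · right
      refine ⟨r, ?_, hmem⟩
      rw [mem_filter, mem_Icc]
      refine ⟨⟨hr1, hrS⟩, h, k, ?_, ?_⟩
      · rw [← hmr]; exact hm1
      · rw [← hmr]; exact hm2

include hS hS3 hp hH hHp hyH in
theorem E2_card : ((E2 x y S p).card : ℝ) ≤ (1 + Real.log S) * (y / (p : ℝ) ^ 2) + (S : ℝ) / p / H +
    ((S : ℝ) / p / H + 1 + 4 * H ^ 4 + 128 * (y / (p : ℝ) ^ 2) * H ^ 6) := by
  refine gen_card y S p H hp (by omega) hH
    (fun k => (Ioc x (x + y)).filter fun m => p * (1 + k * p) ∣ m) _ _ _ ?_ hyH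
    (T2_card x y S p H hS hS3 hp hH hHp hyH) ?_ ?_
  · intro k hk1
    have hk0 : (0 : ℝ) < k := by exact_mod_cast hk1
    have hpR : (0 : ℝ) < p := by exact_mod_cast hp
    have := dvd_card x y (p * (1 + k * p)) (by positivity)
    refine this.trans ?_
    push_cast
    have h5 : (y : ℝ) / (p * (1 + k * p)) ≤ 1 / k * (y / (p : ℝ) ^ 2) := by
      rw [div_mul_div_comm, one_mul]
      apply div_le_div_of_nonneg_left (by positivity) (by positivity)
      nlinarith
    linarith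
  · intro r hr
    rw [mem_filter] at hr
    exact hr.2.1
  · intro m hm
    unfold E2 at hm
    rw [mem_filter, mem_Ioc] at hm
    obtain ⟨⟨hm1, hm2⟩, r, k, hr1, hk1, hkS, hmr⟩ := hm
    have hmem : m ∈ (Ioc x (x + y)).filter fun m => p * (1 + k * p) ∣ m := by
      rw [mem_filter, mem_Ioc]
      refine ⟨⟨hm1, hm2⟩, ⟨r, ?_⟩⟩
      rw [hmr]; ring
    rw [mem_union, mem_biUnion, mem_biUnion]
    rcases le_or_gt (k : ℝ) ((S : ℝ) / p / H) with h | h
    · left
      exact ⟨k, by unfold Sm; rw [mem_filter, mem_Icc]; exact ⟨⟨hk1, hkS⟩, h⟩, hmem⟩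
    · right
      refine ⟨k, ?_, hmem⟩
      rw [mem_filter, mem_Icc]
      refine ⟨⟨hk1, hkS⟩, h, r, ?_, ?_⟩
      · rw [← hmr]; exact hm1
      · rw [← hmr]; exact hm2

end

end Pool.Agent.H69.CR
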